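import Pool.Agent.W619.Y.Main

/-! Gauduchon metrics of positive total scalar curvature: Kodaira dimension `-∞` and uniruledness
(for Moishezon manifolds equivalent to the existence of such a metric) for quotients of products of
a variety and curves. -/

set_option autoImplicit false
set_option linter.overlappingInstances false

universe u

open FF IntermediateField Pool.Agent.W619.PQ Pool.Agent.W619.PL Pool.Agent.W619.TW
  Pool.Agent.W619.X Pool.Agent.W619.Y

namespace Pool.Agent.Results.MP_23b606_ag.MixedQuotients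

/-- Let `Y` be a projective variety of dimension `d` with function field `M` (for instance a
point), `F i` (`i < n`) the function fields of curves `C i`, `L` the function field of
`Y × C 1 × ... × C n` (`hsup`), `G` a finite group of automorphisms of `L` which permutes the curves
through `σ`, and `X` a compact Moishezon manifold bimeromorphic to the quotient by `G`. Assume
`MixedNonneg`, for instance that the fixed locus of each `g ≠ 1` in `G` on the product of the
curves is empty or of codimension at least `6`.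

If `Y` has Kodaira dimension `-∞` only if it is uniruled, then the same holds for `X`. If `K_Y` is
pseudo-effective only if it is `ℚ`-effective, then the same holds for `X`. If `Y` is uniruled or of
Kodaira dimension at least `0`, then the following are equivalent: `X` has Kodaira dimension `-∞`;
`X` is uniruled; `K_X` is not pseudo-effective; `Y` is uniruled or one of the curves is
rational. -/
theorem result {L : Type u} [Field L] [Algebra ℂ L] (d n : ℕ)
    (hn : Algebra.trdeg ℂ L = (d + n : ℕ))
    (M : IntermediateField ℂ L) [Algebra.EssFiniteType ℂ M] (hM : Algebra.trdeg ℂ M = d)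
    (F : Fin n → IntermediateField ℂ L) (hF : ∀ i, IsFF ℂ (F i))
    (hsup : M ⊔ (⨆ i, F i) = ⊤)
    (G : Subgroup (L ≃ₐ[ℂ] L)) [Finite G] (σ : G →* Equiv.Perm (Fin n))
    (hσ : ∀ (g : G) i, ∀ z ∈ F i, (g : L ≃ₐ[ℂ] L) z ∈ F (σ g i))
    (h : MixedNonneg G σ F) :
    ((KodairaNeg ℂ M d → IsUniruled ℂ M d) →
      KodairaNeg ℂ (fixedField G) (d + n) → IsUniruled ℂ (fixedField G) (d + n)) ∧
    ((IsPsef ℂ M d (fun _ => False) → IsEff ℂ M d (fun _ => False)) →
      IsPsef ℂ (fixedField G) (d + n) (fun _ => False) →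
      IsEff ℂ (fixedField G) (d + n) (fun _ => False)) ∧
    (¬ KodairaNeg ℂ M d ∨ IsUniruled ℂ M d →
      (KodairaNeg ℂ (fixedField G) (d + n) ↔ IsUniruled ℂ (fixedField G) (d + n)) ∧
      (IsUniruled ℂ (fixedField G) (d + n) ↔
        ¬ IsPsef ℂ (fixedField G) (d + n) (fun _ => False)) ∧
      (IsUniruled ℂ (fixedField G) (d + n) ↔
        IsUniruled ℂ M d ∨ ∃ i, ∃ t : F i, ℂ⟮t⟯ = ⊤)) := by
  have halg := alg_of_top M F hsup
  obtain ⟨k1, k2⟩ := kodM d n hn M hM F halg G σ hσ h
  obtain ⟨k3, k4⟩ := k2 hsup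
  obtain ⟨v1, v2⟩ := nvM d n hn M hM F halg G σ hσ h
  have hP := v2 hsup
  refine ⟨k4, fun h1 h2 => (hP h2).2.2 (h1 (hP h2).1), fun hY => ?_⟩
  -- a uniruled `Y` or a rational curve
  have hA : IsUniruled ℂ M d ∨ (∃ i, ∃ t : F i, ℂ⟮t⟯ = ⊤) →
      IsUniruled ℂ (fixedField G) (d + n) ∧
      ¬ IsPsef ℂ (fixedField G) (d + n) (fun _ => False) := by
    rintro (hU | hi)
    · obtain ⟨h6, -⟩ := uniruled_neg d hM hU
      exact ⟨uniruled_down G (Pool.Agent.W904.PG.main ℂ L d n M F hM hn hsup hU),
        fun hp => h6 (hP hp).1⟩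
    · obtain ⟨h6, -, h8⟩ := rat_mixed d n hn M hM F hsup G hi
      exact ⟨h8, h6⟩
  have hB : ¬ (IsUniruled ℂ M d ∨ ∃ i, ∃ t : F i, ℂ⟮t⟯ = ⊤) →
      ¬ KodairaNeg ℂ (fixedField G) (d + n) := by
    intro hno
    push Not at hno
    exact k1 (hY.resolve_right hno.1) fun i hi => by
      obtain ⟨t, ht⟩ := hi
      exact hno.2 i t ht
  have hess : Algebra.EssFiniteType ℂ L := ess_top M F hsup
  have hfinL : FiniteDimensional (fixedField G) L := by
    have hGal : IsGaloisGroup G (fixedField G) L := isGaloisGroup_fixed G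
    exact IsGaloisGroup.finiteDimensional G (fixedField G) L
  have hK : Algebra.trdeg ℂ (fixedField G) = (d + n : ℕ) := by
    rw [← hn, ← trdeg_add_eq ℂ (fixedField G) (A := L),
      trdeg_eq_zero (R := fixedField G) (A := L), add_zero]
  obtain ⟨y, hy⟩ := exists_fin_basis (k := ℂ) (d + n) hK
  have h1 : FiniteDimensional (IntermediateField.adjoin ℂ (Set.range y)) (fixedField G) :=
    fin_over_adjoin (d + n) (fixedField G) y hy
  have h2 : Algebra.EssFiniteType ℂ (IntermediateField.adjoin ℂ (Set.range y)) :=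
    essFiniteType_iff.2 (fg_adjoin_of_finite (Set.finite_range y))
  have hessK : Algebra.EssFiniteType ℂ (fixedField G) :=
    Algebra.EssFiniteType.comp ℂ (IntermediateField.adjoin ℂ (Set.range y)) (fixedField G)
  have hUP : IsUniruled ℂ (fixedField G) (d + n) →
      ¬ IsPsef ℂ (fixedField G) (d + n) (fun _ => False) :=
    fun hU => (uniruled_neg (d + n) hK hU).1
  have hPK : ¬ IsPsef ℂ (fixedField G) (d + n) (fun _ => False) →
      KodairaNeg ℂ (fixedField G) (d + n) :=
    fun hp => kodairaNeg_of_not_eff.1 fun he => hp (psef_of_eff he)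
  have hKD : KodairaNeg ℂ (fixedField G) (d + n) →
      IsUniruled ℂ M d ∨ ∃ i, ∃ t : F i, ℂ⟮t⟯ = ⊤ := by
    intro hκ
    by_contra hno
    exact hB hno hκ
  exact ⟨⟨fun hκ => (hA (hKD hκ)).1, fun hU => hPK (hUP hU)⟩,
    ⟨hUP, fun hp => (hA (hKD (hPK hp))).1⟩, ⟨fun hU => hKD (hPK (hUP hU)), fun hd => (hA hd).1⟩⟩

end Pool.Agent.Results.MP_23b606_ag.MixedQuotients
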